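import Pool.Agent.Helper98.LC.G.Iface

/-!
# LC-G20: systems of closed paths

`E` finite, `s` a permutation of `E`, for each `e` a polygonal path `p e 0, p e 1, ..., p e (k e)` with `k e ≥ 1` segments which ends
where the path of `s e` begins.  Index set `D = Σ e, Fin (k e)`, points `z (e, j) = p e j`, permutation
`(e, j) ↦ (e, j + 1)` if `j + 1 < k e`, else `(s e, 0)` (injective, hence a permutation of a finite set).
`z (s' (e,j)) = p e (j + 1)` in both cases.  `card D = ∑ e, k e`.  So everything is `iso_perm`, `iso_perm_n`,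
`area_small` for `D`.  For `iso_paths_abs` apply `iso_paths` also to the complex conjugate paths
(`cr (conj a) (conj b) = - cr a b`).
-/

namespace Pool.Agent.Helper98.LC

open Finset Real

/-- the signed area swept by a path (from the origin) -/
noncomputable def parea (p : ℕ → ℂ) (k : ℕ) : ℝ := (∑ j ∈ range k, cr (p j) (p (j + 1))) / 2

/-- the length of a path -/
noncomputable def plen (p : ℕ → ℂ) (k : ℕ) : ℝ := ∑ j ∈ range k, ‖p (j + 1) - p j‖

/-- the signed area between a path and its chord -/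
noncomputable def pbul (p : ℕ → ℂ) (k : ℕ) : ℝ := parea p k - cr (p 0) (p k) / 2

private theorem paths_key {E : Type} [Fintype E] (s : Equiv.Perm E) (k : E → ℕ)
    (p : E → ℕ → ℂ) (hk : ∀ e, 1 ≤ k e) (hp : ∀ e, p e (k e) = p (s e) 0) :
    ∃ s' : Equiv.Perm ((e : E) × Fin (k e)), ∀ g : ℂ → ℂ → ℝ,
      ∑ d : (e : E) × Fin (k e), g (p d.1 d.2) (p (s' d).1 (s' d).2) =
        ∑ e, ∑ j ∈ range (k e), g (p e j) (p e (j + 1)) := by
  classical
  let f : ((e : E) × Fin (k e)) → ((e : E) × Fin (k e)) := fun d =>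
    if h : (d.2 : ℕ) + 1 < k d.1 then ⟨d.1, ⟨(d.2 : ℕ) + 1, h⟩⟩ else ⟨s d.1, ⟨0, hk (s d.1)⟩⟩
  have hf1 : ∀ (e : E) (j : Fin (k e)) (h : (j : ℕ) + 1 < k e),
      f ⟨e, j⟩ = ⟨e, ⟨(j : ℕ) + 1, h⟩⟩ := fun e j h => dif_pos h
  have hf2 : ∀ (e : E) (j : Fin (k e)) (_ : ¬ (j : ℕ) + 1 < k e),
      f ⟨e, j⟩ = ⟨s e, ⟨0, hk (s e)⟩⟩ := fun e j h => dif_neg h
  have hext : ∀ (a b : (e : E) × Fin (k e)), a.1 = b.1 → (a.2 : ℕ) = (b.2 : ℕ) → a = b := by
    rintro ⟨a, i⟩ ⟨b, j⟩ h1 h2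
    dsimp only at h1 h2
    subst h1
    rw [Fin.ext h2]
  have hinj : Function.Injective f := by
    rintro ⟨e, j⟩ ⟨e', j'⟩ h
    have hj := j.2
    have hj' := j'.2
    by_cases h1 : (j : ℕ) + 1 < k e <;> by_cases h2 : (j' : ℕ) + 1 < k e'
    · rw [hf1 e j h1, hf1 e' j' h2] at h
      have a1 : e = e' := congrArg (fun d : (e : E) × Fin (k e) => d.1) h
      have a2 : (j : ℕ) + 1 = (j' : ℕ) + 1 :=
        congrArg (fun d : (e : E) × Fin (k e) => (d.2 : ℕ)) h
      exact hext _ _ a1 (by dsimp only; omega)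
    · rw [hf1 e j h1, hf2 e' j' h2] at h
      have a2 : (j : ℕ) + 1 = 0 :=
        congrArg (fun d : (e : E) × Fin (k e) => (d.2 : ℕ)) h
      omega
    · rw [hf2 e j h1, hf1 e' j' h2] at h
      have a2 : 0 = (j' : ℕ) + 1 :=
        congrArg (fun d : (e : E) × Fin (k e) => (d.2 : ℕ)) h
      omega
    · rw [hf2 e j h1, hf2 e' j' h2] at h
      have a1 : s e = s e' := congrArg (fun d : (e : E) × Fin (k e) => d.1) h
      have a2 : e = e' := s.injective a1
      subst a2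
      exact hext _ _ rfl (by dsimp only; omega)
  have hbij : Function.Bijective f := Finite.injective_iff_bijective.1 hinj
  refine ⟨Equiv.ofBijective f hbij, fun g => ?_⟩
  have hz : ∀ d : (e : E) × Fin (k e), p (f d).1 (f d).2 = p d.1 ((d.2 : ℕ) + 1) := by
    rintro ⟨e, j⟩
    by_cases h1 : (j : ℕ) + 1 < k e
    · rw [hf1 e j h1]
    · rw [hf2 e j h1]
      have hj := j.2
      have h2 : (j : ℕ) + 1 = k e := by omega
      dsimp only
      rw [h2, hp]
  rw [Fintype.sum_sigma]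
  refine Finset.sum_congr rfl fun e _ => ?_
  rw [Finset.sum_range]
  refine Finset.sum_congr rfl fun y _ => ?_
  exact congrArg (g (p e y)) (hz ⟨e, y⟩)

private theorem paths_area {E : Type} [Fintype E] (k : E → ℕ) (p : E → ℕ → ℂ) :
    (∑ e, ∑ j ∈ range (k e), cr (p e j) (p e (j + 1))) / 2 = ∑ e, parea (p e) (k e) := by
  rw [Finset.sum_div]
  rfl

private theorem paths_card {E : Type} [Fintype E] (k : E → ℕ) :
    Fintype.card ((e : E) × Fin (k e)) = ∑ e, k e := by
  rw [Fintype.card_sigma]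
  simp only [Fintype.card_fin]

theorem iso_paths_n {E : Type} [Fintype E] (s : Equiv.Perm E) (k : E → ℕ) (p : E → ℕ → ℂ)
    (hk : ∀ e, 1 ≤ k e) (hp : ∀ e, p e (k e) = p (s e) 0) (h3 : 3 ≤ ∑ e, k e) :
    4 * ((∑ e, k e : ℕ) : ℝ) * tan (π / ((∑ e, k e : ℕ) : ℝ)) * (∑ e, parea (p e) (k e)) ≤
      (∑ e, plen (p e) (k e)) ^ 2 := by
  obtain ⟨s', hs'⟩ := paths_key s k p hk hp
  have h := iso_perm_n (D := (e : E) × Fin (k e)) (by rw [paths_card]; exact h3) s'
    fun d => p d.1 d.2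
  rw [hs' cr, hs' fun a b => ‖b - a‖, paths_area, paths_card] at h
  exact h

theorem iso_paths {E : Type} [Fintype E] (s : Equiv.Perm E) (k : E → ℕ) (p : E → ℕ → ℂ)
    (hk : ∀ e, 1 ≤ k e) (hp : ∀ e, p e (k e) = p (s e) 0) :
    4 * π * (∑ e, parea (p e) (k e)) ≤ (∑ e, plen (p e) (k e)) ^ 2 := by
  obtain ⟨s', hs'⟩ := paths_key s k p hk hp
  have h := iso_perm (D := (e : E) × Fin (k e)) s' fun d => p d.1 d.2
  rw [hs' cr, hs' fun a b => ‖b - a‖, paths_area] at h
  exact h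

theorem iso_paths_abs {E : Type} [Fintype E] (s : Equiv.Perm E) (k : E → ℕ) (p : E → ℕ → ℂ)
    (hk : ∀ e, 1 ≤ k e) (hp : ∀ e, p e (k e) = p (s e) 0) :
    4 * π * |∑ e, parea (p e) (k e)| ≤ (∑ e, plen (p e) (k e)) ^ 2 := by
  rcases le_total 0 (∑ e, parea (p e) (k e)) with h | h
  · rw [abs_of_nonneg h]
    exact iso_paths s k p hk hp
  · rw [abs_of_nonpos h]
    have h1 := iso_paths s k (fun e j => (starRingEnd ℂ) (p e j)) hk fun e => by rw [hp]
    have h2 : ∀ e, parea (fun j => (starRingEnd ℂ) (p e j)) (k e) = - parea (p e) (k e) := by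
      intro e
      unfold parea
      rw [← neg_div, ← Finset.sum_neg_distrib]
      congr 1
      refine Finset.sum_congr rfl fun j _ => ?_
      unfold cr
      rw [Complex.conj_re, Complex.conj_im, Complex.conj_re, Complex.conj_im]
      ring
    have h3 : ∀ e, plen (fun j => (starRingEnd ℂ) (p e j)) (k e) = plen (p e) (k e) := by
      intro e
      unfold plen
      refine Finset.sum_congr rfl fun j _ => ?_
      rw [← map_sub, RCLike.norm_conj]
    simp only [h2, h3, Finset.sum_neg_distrib] at h1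
    exact h1

theorem paths_small {E : Type} [Fintype E] (s : Equiv.Perm E) (k : E → ℕ) (p : E → ℕ → ℂ)
    (hk : ∀ e, 1 ≤ k e) (hp : ∀ e, p e (k e) = p (s e) 0) (h2 : ∑ e, k e ≤ 2) :
    ∑ e, parea (p e) (k e) = 0 := by
  obtain ⟨s', hs'⟩ := paths_key s k p hk hp
  have h := area_small (D := (e : E) × Fin (k e)) (by rw [paths_card]; exact h2) s'
    fun d => p d.1 d.2
  rw [hs' cr] at h
  rw [← paths_area, h, zero_div]

end Pool.Agent.Helper98.LC
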