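import Pool.Agent.Helper98.LC.Defs

/-!
# LC-G04: merging the cycles of a system of closed polygons

Fix `d₀ : D`.  Among all pairs `(s', z')` with the same total length and the same total area as `(s, z)` choose one for which the
number of elements of the orbit of `d₀` under `s'` is maximal.  Assume that some `d'` is not in the orbit of `d₀`.  Translate the
points of the orbit of `d'` by the constant `z' d₀ - z' d'` (this changes neither the sides nor the area of this cycle:
`∑ d in the orbit, cr (z' d + v) (z' (s' d) + v) = ∑ cr (z' d) (z' (s' d))`, telescoping), so now `z' d' = z' d₀`.  Let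
`s'' = s' * swap d₀ d'`, i.e. `s'' d₀ = s' d'`, `s'' d' = s' d₀`.  Since `z' d₀ = z' d'` the total length and the total area are the same.
The orbit of `d₀` under `s''` is the union of the two orbits, strictly larger: contradiction.
So the orbit is everything: `i ↦ s' ^ i d₀`, `i : Fin (card D)`, is a bijection `Fin (card D) → D` (injective since the orbit has
`card D` elements: if `s'^i d₀ = s'^j d₀` with `i < j < card D` then the orbit would have at most `j - i < card D` elements), and
`s' (s'^i d₀) = s'^(i+1) d₀` also for `i = card D - 1` (`s'^(card D) d₀ = d₀`).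
-/

namespace Pool.Agent.Helper98.LC

open Finset Real

open Equiv Equiv.Perm

variable {D : Type} [Fintype D]

private theorem sc_step [DecidableEq D] {s : Equiv.Perm D} {d₀ d' : D}
    (h : ¬ s.SameCycle d₀ d') (j : ℕ) :
    (s * swap d₀ d').SameCycle d' ((s ^ j) (s d₀)) := by
  have hd' : (s * swap d₀ d') d' = s d₀ := by simp
  induction j with
  | zero =>
    rw [pow_zero, Perm.one_apply, ← hd', sameCycle_apply_right]
  | succ j ih =>
    have h1 : (s ^ (j + 1)) (s d₀) = s ((s ^ j) (s d₀)) := by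
      rw [pow_succ', Perm.mul_apply]
    rw [h1]
    by_cases hx : (s ^ j) (s d₀) = d₀
    · rw [hx, ← hd', sameCycle_apply_right]
    · have hx' : (s ^ j) (s d₀) ≠ d' := by
        intro he
        apply h
        rw [← he, sameCycle_pow_right, sameCycle_apply_right]
      have h2 : (s * swap d₀ d') ((s ^ j) (s d₀)) = s ((s ^ j) (s d₀)) := by
        rw [Perm.mul_apply, swap_apply_of_ne_of_ne hx hx']
      rw [← h2, sameCycle_apply_right]
      exact ih

private theorem sc_mono [DecidableEq D] {s : Equiv.Perm D} {d₀ d' : D}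
    (h : ¬ s.SameCycle d₀ d') {x : D} (hx : s.SameCycle d₀ x) :
    (s * swap d₀ d').SameCycle d' x := by
  have h1 : s.SameCycle (s d₀) x := sameCycle_apply_left.2 hx
  obtain ⟨i, -, rfl⟩ := h1.exists_pow_eq'
  exact sc_step h i

private theorem cr_shift {s : Equiv.Perm D} (z w : D → ℂ) (hw : ∀ d, w (s d) = w d) :
    ∑ d, cr (z d + w d) (z (s d) + w (s d)) = ∑ d, cr (z d) (z (s d)) := by
  have h1 : ∀ d, cr (z d + w d) (z (s d) + w (s d)) =
      cr (z d) (z (s d)) + (cr (z d) (w d) - cr (z (s d)) (w (s d))) := by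
    intro d
    rw [hw]
    unfold cr
    simp only [Complex.add_re, Complex.add_im]
    ring
  have h2 : ∑ d, cr (z (s d)) (w (s d)) = ∑ d, cr (z d) (w d) :=
    Equiv.sum_comp s (fun d => cr (z d) (w d))
  simp_rw [h1]
  rw [Finset.sum_add_distrib, Finset.sum_sub_distrib, h2]
  ring

private theorem merge_one [DecidableEq D] (s : Equiv.Perm D) (z : D → ℂ) (d₀ d' : D)
    (h : ¬ s.SameCycle d₀ d') : ∃ z' : D → ℂ,
    ∑ d, cr (z' d) (z' ((s * swap d₀ d') d)) = ∑ d, cr (z d) (z (s d)) ∧
    ∑ d, ‖z' ((s * swap d₀ d') d) - z' d‖ = ∑ d, ‖z (s d) - z d‖ := by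
  classical
  set w : D → ℂ := fun d => if s.SameCycle d' d then z d₀ - z d' else 0 with hwdef
  have hw : ∀ d, w (s d) = w d := by
    intro d
    simp only [hwdef, sameCycle_apply_right]
  have hz0 : z d₀ + w d₀ = z d' + w d' := by
    have h1 : w d₀ = 0 := by
      simp only [hwdef]
      rw [if_neg]
      exact fun hc => h hc.symm
    have h2 : w d' = z d₀ - z d' := by
      simp only [hwdef]
      rw [if_pos (SameCycle.refl s d')]
    rw [h1, h2]
    ring
  have hsw : ∀ d, z (swap d₀ d' d) + w (swap d₀ d' d) = z d + w d := by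
    intro d
    by_cases h1 : d = d₀
    · subst h1
      rw [swap_apply_left, hz0]
    · by_cases h2 : d = d'
      · subst h2
        rw [swap_apply_right, hz0]
      · rw [swap_apply_of_ne_of_ne h1 h2]
  refine ⟨fun d => z d + w d, ?_, ?_⟩
  · have h1 : ∑ d, cr (z d + w d)
        (z ((s * swap d₀ d') d) + w ((s * swap d₀ d') d)) =
        ∑ d, cr (z (swap d₀ d' d) + w (swap d₀ d' d))
          (z (s (swap d₀ d' d)) + w (s (swap d₀ d' d))) := by
      refine Finset.sum_congr rfl fun d _ => ?_
      rw [hsw, Perm.mul_apply]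
    rw [h1, Equiv.sum_comp (swap d₀ d') (fun d => cr (z d + w d) (z (s d) + w (s d))),
      cr_shift z w hw]
  · have h1 : ∑ d, ‖(z ((s * swap d₀ d') d) + w ((s * swap d₀ d') d)) - (z d + w d)‖ =
        ∑ d, ‖(z (s (swap d₀ d' d)) + w (s (swap d₀ d' d))) -
          (z (swap d₀ d' d) + w (swap d₀ d' d))‖ := by
      refine Finset.sum_congr rfl fun d _ => ?_
      rw [hsw, Perm.mul_apply]
    rw [h1, Equiv.sum_comp (swap d₀ d') (fun d => ‖(z (s d) + w (s d)) - (z d + w d)‖)]
    refine Finset.sum_congr rfl fun d _ => ?_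
    rw [hw, add_sub_add_right_eq_sub]

private theorem exists_transitive (d₀ : D) (k : ℕ) : ∀ (s : Equiv.Perm D) (z : D → ℂ),
    Nat.card {d // ¬ s.SameCycle d₀ d} = k → ∃ (s' : Equiv.Perm D) (z' : D → ℂ),
      (∀ d, s'.SameCycle d₀ d) ∧
      ∑ d, cr (z' d) (z' (s' d)) = ∑ d, cr (z d) (z (s d)) ∧
      ∑ d, ‖z' (s' d) - z' d‖ = ∑ d, ‖z (s d) - z d‖ := by
  classical
  induction k using Nat.strong_induction_on with
  | _ k ih =>
    intro s z hk
    by_cases hall : ∀ d, s.SameCycle d₀ d
    · exact ⟨s, z, hall, rfl, rfl⟩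
    · push Not at hall
      obtain ⟨d', hd'⟩ := hall
      obtain ⟨z1, h1, h2⟩ := merge_one s z d₀ d' hd'
      have h0 : (s * swap d₀ d').SameCycle d₀ d' := (sc_mono hd' (SameCycle.refl s d₀)).symm
      have hlt : Nat.card {d // ¬ (s * swap d₀ d').SameCycle d₀ d} < k := by
        rw [← hk]
        let f : {d // ¬ (s * swap d₀ d').SameCycle d₀ d} → {d // ¬ s.SameCycle d₀ d} :=
          fun d => ⟨d.1, fun hc => d.2 (h0.trans (sc_mono hd' hc))⟩
        have hf : Function.Injective f := fun a b hab => Subtype.ext (congrArg (fun t => t.1) hab)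
        have hne : ¬ Function.Surjective f := by
          intro hs
          obtain ⟨d, hd⟩ := hs ⟨d', hd'⟩
          have : d.1 = d' := congrArg (fun t => t.1) hd
          apply d.2
          rw [this]
          exact h0
        refine lt_of_le_of_ne (Nat.card_le_card_of_injective f hf) fun he => hne ?_
        rw [Nat.card_eq_fintype_card, Nat.card_eq_fintype_card] at he
        exact ((Fintype.bijective_iff_injective_and_card f).2 ⟨hf, he⟩).2
      obtain ⟨s', z', h3, h4, h5⟩ := ih _ hlt (s * swap d₀ d') z1 rfl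
      exact ⟨s', z', h3, h4.trans h1, h5.trans h2⟩

theorem merge_cycles {D : Type} [Fintype D] (n : ℕ) [NeZero n] (hn : Fintype.card D = n)
    (s : Equiv.Perm D) (z : D → ℂ) :
    ∃ w : Fin n → ℂ, ∑ i, cr (w i) (w (i + 1)) = ∑ d, cr (z d) (z (s d)) ∧
      ∑ i, ‖w (i + 1) - w i‖ = ∑ d, ‖z (s d) - z d‖ := by
  classical
  have hn0 : n ≠ 0 := NeZero.ne n
  have hne : Nonempty D := Fintype.card_pos_iff.1 (by omega)
  obtain ⟨d₀⟩ := hne
  obtain ⟨s', z', h1, h2, h3⟩ := exists_transitive d₀ _ s z rfl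
  have hc : s'.IsCycleOn ((univ : Finset D) : Set D) := by
    refine ⟨?_, fun x _ y _ => (h1 x).symm.trans (h1 y)⟩
    rw [Finset.coe_univ]
    exact Set.bijOn_univ.2 s'.bijective
  have hcard : (univ : Finset D).card = n := by rw [Finset.card_univ, hn]
  have hperiod : (s' ^ n) d₀ = d₀ := by
    have := hc.pow_card_apply (mem_univ d₀)
    rwa [hcard] at this
  have hsurj : Function.Surjective (fun i : Fin n => (s' ^ (i : ℕ)) d₀) := by
    intro d
    obtain ⟨m, hm, he⟩ := hc.exists_pow_eq (mem_univ d₀) (mem_univ d)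
    rw [hcard] at hm
    exact ⟨⟨m, hm⟩, he⟩
  have hbij : Function.Bijective (fun i : Fin n => (s' ^ (i : ℕ)) d₀) :=
    (Fintype.bijective_iff_surjective_and_card _).2 ⟨hsurj, by rw [Fintype.card_fin, hn]⟩
  have hmod : ∀ m : ℕ, (s' ^ (m % n)) d₀ = (s' ^ m) d₀ := by
    intro m
    have h5 : ∀ t : ℕ, (s' ^ (n * t)) d₀ = d₀ := by
      intro t
      induction t with
      | zero => simp
      | succ t iht => rw [Nat.mul_succ, pow_add, Perm.mul_apply, hperiod, iht]
    conv_rhs => rw [← Nat.mod_add_div m n, pow_add, Perm.mul_apply, h5]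
  have hnext : ∀ i : Fin n, (s' ^ ((i + 1 : Fin n) : ℕ)) d₀ = s' ((s' ^ (i : ℕ)) d₀) := by
    intro i
    have h6 : ((i + 1 : Fin n) : ℕ) = ((i : ℕ) + 1) % n := by
      rw [Fin.val_add, Fin.val_one', Nat.add_mod_mod]
    rw [h6, hmod, pow_succ', Perm.mul_apply]
  refine ⟨fun i => z' ((s' ^ (i : ℕ)) d₀), ?_, ?_⟩
  · rw [← h2]
    rw [← hbij.sum_comp (fun d => cr (z' d) (z' (s' d)))]
    refine Finset.sum_congr rfl fun i _ => ?_
    simp only [hnext]
  · rw [← h3]
    rw [← hbij.sum_comp (fun d => ‖z' (s' d) - z' d‖)]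
    refine Finset.sum_congr rfl fun i _ => ?_
    simp only [hnext]

end Pool.Agent.Helper98.LC
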