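import Pool.Agent.Helper98.LC.G.Ngon
import Pool.Agent.Helper98.LC.G.Cycle

/-!
# LC-G05: the isoperimetric inequality for polygons, in the form used by the other blocks

`s` is a permutation of the finite index set `D` (a system of closed polygons).

* `area_small`: `card D ≤ 1`: `s = 1`, `cr a a = 0`.  `card D = 2`: `s = 1` or `s` exchanges the two elements: `cr a b + cr b a = 0`.
* `iso_perm_n`: `merge_cycles` and `ngon`.
* `iso_perm`: if the area is `≤ 0` it is trivial; otherwise `card D ≥ 3` by `area_small`, and `iso_perm_n` with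
  `n tan (π/n) ≥ π` (`tan x ≥ x` for `0 ≤ x < π/2`).
-/

namespace Pool.Agent.Helper98.LC

open Finset Real

theorem area_small {D : Type} [Fintype D] (hD : Fintype.card D ≤ 2) (s : Equiv.Perm D)
    (z : D → ℂ) : ∑ d, cr (z d) (z (s d)) = 0 := by
  classical
  have h2 : s ^ 2 = 1 := by
    have h1 : Fintype.card (Equiv.Perm D) ∣ 2 := by
      rw [Fintype.card_perm]
      interval_cases h : Fintype.card D <;> decide
    obtain ⟨m, hm⟩ := h1
    rw [hm, pow_mul, pow_card_eq_one, one_pow]
  have h3 : ∀ d, s (s d) = d := by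
    intro d
    have := congrArg (fun t : Equiv.Perm D => t d) h2
    simpa [pow_two] using this
  have h4 : ∑ d, cr (z d) (z (s d)) = ∑ d, cr (z (s d)) (z (s (s d))) :=
    (Equiv.sum_comp s (fun d => cr (z d) (z (s d)))).symm
  have h5 : ∑ d, cr (z (s d)) (z (s (s d))) = - ∑ d, cr (z d) (z (s d)) := by
    rw [← Finset.sum_neg_distrib]
    refine Finset.sum_congr rfl fun d _ => ?_
    rw [h3]
    unfold cr
    ring
  linarith

theorem iso_perm_n {D : Type} [Fintype D] (hD : 3 ≤ Fintype.card D) (s : Equiv.Perm D)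
    (z : D → ℂ) :
    4 * (Fintype.card D) * tan (π / (Fintype.card D)) * ((∑ d, cr (z d) (z (s d))) / 2) ≤
      (∑ d, ‖z (s d) - z d‖) ^ 2 := by
  have : NeZero (Fintype.card D) := ⟨by omega⟩
  obtain ⟨w, hw1, hw2⟩ := merge_cycles (Fintype.card D) rfl s z
  have h := ngon (Fintype.card D) hD w
  rwa [hw1, hw2] at h

theorem iso_perm {D : Type} [Fintype D] (s : Equiv.Perm D) (z : D → ℂ) :
    4 * π * ((∑ d, cr (z d) (z (s d))) / 2) ≤ (∑ d, ‖z (s d) - z d‖) ^ 2 := by
  rcases le_or_gt (∑ d, cr (z d) (z (s d))) 0 with h0 | h0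
  · have h1 : 4 * π * ((∑ d, cr (z d) (z (s d))) / 2) ≤ 0 :=
      mul_nonpos_of_nonneg_of_nonpos (by positivity) (by linarith)
    exact h1.trans (sq_nonneg _)
  · have h3 : 3 ≤ Fintype.card D := by
      by_contra hlt
      rw [area_small (by omega) s z] at h0
      exact lt_irrefl _ h0
    refine le_trans ?_ (iso_perm_n h3 s z)
    have hn : (3 : ℝ) ≤ (Fintype.card D : ℝ) := by exact_mod_cast h3
    have hpos : (0 : ℝ) < (Fintype.card D : ℝ) := by linarith
    have hx0 : 0 ≤ π / (Fintype.card D : ℝ) := by positivity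
    have hx1 : π / (Fintype.card D : ℝ) < π / 2 :=
      div_lt_div_of_pos_left pi_pos (by norm_num) (by linarith)
    have ht : π ≤ (Fintype.card D : ℝ) * tan (π / (Fintype.card D : ℝ)) := by
      have h5 := mul_le_mul_of_nonneg_left (Real.le_tan hx0 hx1) hpos.le
      rwa [mul_div_cancel₀ _ hpos.ne'] at h5
    have h6 : 4 * π ≤ 4 * (Fintype.card D : ℝ) * tan (π / (Fintype.card D : ℝ)) := by
      linarith
    exact mul_le_mul_of_nonneg_right h6 (by linarith)

end Pool.Agent.Helper98.LC
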