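import Pool.Agent.Helper98.LC.G.Paths

/-!
# LC-G21: the inequality of Dido for `M` rotated copies

Let `A = p 0`, `B = p k`, `c = |B - A|`, `x = pbul p k`, `L = plen p k`.  `ω = exp (2 π i / M) ≠ 1`, `O = (B - ω A) / (1 - ω)`, so
`B - O = ω (A - O)`.  Paths `p' e j = O + ω ^ e (p j - O)`, `e : Fin M`, `s e = e + 1` (`ω ^ M = 1`): a closed system, total
length `M L`, total area `∑ e, parea (p' e) k`: translation by `O` of a closed system does not change the area
(`∑ e, parea (p' e - O) k = ∑ e, parea (p' e) k`, since `cr` of a constant with the telescoping sum of the differences vanishes), rotations do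
not change `cr`, so it is `M * parea (p - O) k = M (x + cr (A - O) (B - O) / 2)` (`pbul` is translation invariant), and
`cr (A - O) (B - O) = |A - O|² sin (2π/M)`, `|A - O| = c / (2 sin (π/M))` (`|1 - ω| = 2 sin (π/M)`), so
`cr (A - O)(B - O) / 2 = c² cos (π/M) / (4 sin (π/M))`.  `iso_paths`: `M² L² ≥ 4 π M (x + c² cot (π/M) / 4)`.
For `-x` apply this to the reversed path `p (k - j)` or to the conjugate path.
For `k = 0` everything is `0`.
`chord_le`: triangle inequality.
-/

namespace Pool.Agent.Helper98.LC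

open Finset Real

theorem chord_le (p : ℕ → ℂ) (k : ℕ) : ‖p k - p 0‖ ≤ plen p k := by
  unfold plen
  rw [← Finset.sum_range_sub]
  exact norm_sum_le _ _

private theorem dido_cr_mul (u a b : ℂ) : cr (u * a) (u * b) = Complex.normSq u * cr a b := by
  unfold cr
  rw [Complex.normSq_apply, Complex.mul_re, Complex.mul_im, Complex.mul_re, Complex.mul_im]
  ring

private theorem dido_trans (p : ℕ → ℂ) (O : ℂ) (k : ℕ) :
    pbul (fun j => p j - O) k = pbul p k := by
  have h : ∀ k, (∑ j ∈ range k, cr (p j - O) (p (j + 1) - O)) - cr (p 0 - O) (p k - O) =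
      (∑ j ∈ range k, cr (p j) (p (j + 1))) - cr (p 0) (p k) := by
    intro k
    induction k with
    | zero =>
      unfold cr
      simp only [Finset.range_zero, Finset.sum_empty]
      ring
    | succ k ih =>
      rw [Finset.sum_range_succ, Finset.sum_range_succ]
      have h2 : cr (p k - O) (p (k + 1) - O) - cr (p 0 - O) (p (k + 1) - O) +
          cr (p 0 - O) (p k - O) = cr (p k) (p (k + 1)) - cr (p 0) (p (k + 1)) +
          cr (p 0) (p k) := by
        unfold cr
        simp only [Complex.sub_re, Complex.sub_im]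
        ring
      linarith
  unfold pbul parea
  have h3 := h k
  linarith

private theorem dido_plen (p : ℕ → ℂ) (u O : ℂ) (hu : ‖u‖ = 1) (k : ℕ) :
    plen (fun j => u * (p j - O)) k = plen p k := by
  unfold plen
  refine Finset.sum_congr rfl fun j _ => ?_
  have h : u * (p (j + 1) - O) - u * (p j - O) = u * (p (j + 1) - p j) := by ring
  rw [h, norm_mul, hu, one_mul]

private theorem dido_one (p : ℕ → ℂ) (k : ℕ) (hk : 1 ≤ k) (M : ℕ) (hM : 2 ≤ M) :
    π / M * (cos (π / M) / sin (π / M)) * ‖p k - p 0‖ ^ 2 + 4 * π / M * pbul p k ≤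
      plen p k ^ 2 := by
  have hM0 : (0 : ℝ) < M := by positivity
  have hM2 : (2 : ℝ) ≤ M := by exact_mod_cast hM
  set θ : ℝ := π / M with hθ
  have hθ0 : 0 < θ := by positivity
  have hθ1 : θ < π := by
    rw [hθ, div_lt_iff₀ hM0]
    nlinarith [Real.pi_pos]
  have hs : 0 < sin θ := Real.sin_pos_of_pos_of_lt_pi hθ0 hθ1
  set ω : ℂ := Complex.exp ((2 * θ : ℝ) * Complex.I) with hω
  have hre : ω.re = cos (2 * θ) := Complex.exp_ofReal_mul_I_re _
  have him : ω.im = sin (2 * θ) := Complex.exp_ofReal_mul_I_im _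
  have hn : ‖ω‖ = 1 := Complex.norm_exp_ofReal_mul_I _
  have hpow : ω ^ M = 1 := by
    rw [hω, ← Complex.exp_nat_mul]
    have h : (M : ℂ) * (((2 * θ : ℝ) : ℂ) * Complex.I) = 2 * π * Complex.I := by
      have h2 : (M : ℝ) * (2 * θ) = 2 * π := by
        rw [hθ]
        field_simp
      have h3 : (M : ℂ) * ((2 * θ : ℝ) : ℂ) = ((2 * π : ℝ) : ℂ) := by
        rw [← h2]
        push_cast
        ring
      rw [← mul_assoc, h3]
      push_cast
      ring
    rw [h, Complex.exp_two_pi_mul_I]
  have hsq : Complex.normSq (1 - ω) = 4 * sin θ ^ 2 := by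
    rw [Complex.normSq_apply, Complex.sub_re, Complex.sub_im, Complex.one_re, Complex.one_im,
      hre, him, Real.cos_two_mul, Real.sin_two_mul]
    have := Real.sin_sq_add_cos_sq θ
    have h4 : cos θ ^ 2 = 1 - sin θ ^ 2 := by linarith
    have h5 : cos θ ^ 4 = (1 - sin θ ^ 2) ^ 2 := by rw [← h4]; ring
    ring_nf
    rw [h4, h5]
    ring
  have hne : (1 : ℂ) - ω ≠ 0 := by
    intro h
    rw [h, map_zero] at hsq
    have : 0 < 4 * sin θ ^ 2 := by positivity
    linarith
  set O : ℂ := (p k - ω * p 0) / (1 - ω) with hO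
  have hO1 : p k - O = ω * (p 0 - O) := by
    have h : O * (1 - ω) = p k - ω * p 0 := by
      rw [hO, div_mul_cancel₀ _ hne]
    linear_combination (-1 : ℂ) * h
  have hO2 : (p 0 - O) * (1 - ω) = p 0 - p k := by
    have h : O * (1 - ω) = p k - ω * p 0 := by
      rw [hO, div_mul_cancel₀ _ hne]
    linear_combination (-1 : ℂ) * h
  have hNZ : NeZero M := ⟨by omega⟩
  have hnp : ∀ e : ℕ, ‖ω ^ e‖ = 1 := fun e => by rw [norm_pow, hn, one_pow]
  have hsucc : ∀ e : Fin M, ω ^ ((e + 1 : Fin M) : ℕ) = ω ^ ((e : ℕ) + 1) := by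
    intro e
    have hm : ∀ a : ℕ, ω ^ (a % M) = ω ^ a := by
      intro a
      conv_rhs => rw [← Nat.div_add_mod a M, pow_add, pow_mul, hpow, one_pow, one_mul]
    rw [Fin.val_add, Fin.val_one', Nat.add_mod_mod, hm]
  have key := iso_paths (E := Fin M) (Equiv.addRight 1) (fun _ => k)
    (fun e j => ω ^ (e : ℕ) * (p j - O)) (fun _ => hk) (by
      intro e
      simp only [Equiv.coe_addRight]
      rw [hsucc, hO1, pow_succ]
      ring)
  have hpa : ∀ e : Fin M, parea (fun j => ω ^ (e : ℕ) * (p j - O)) k =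
      parea (fun j => p j - O) k := by
    intro e
    unfold parea
    congr 1
    refine Finset.sum_congr rfl fun j _ => ?_
    rw [dido_cr_mul, Complex.normSq_eq_norm_sq, hnp, one_pow, one_mul]
  have hpl : ∀ e : Fin M, plen (fun j => ω ^ (e : ℕ) * (p j - O)) k = plen p k :=
    fun e => dido_plen p _ O (hnp e) k
  simp only [hpa, hpl, Finset.sum_const, Finset.card_univ, Fintype.card_fin, nsmul_eq_mul] at key
  have hcr : cr (p 0 - O) (p k - O) = ‖p k - p 0‖ ^ 2 * (2 * sin θ * cos θ) / (4 * sin θ ^ 2) := by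
    have h1 : cr (p 0 - O) (p k - O) = Complex.normSq (p 0 - O) * sin (2 * θ) := by
      rw [hO1, ← him]
      unfold cr
      rw [Complex.normSq_apply, Complex.mul_re, Complex.mul_im]
      ring
    have h2 : Complex.normSq (p 0 - O) * (4 * sin θ ^ 2) = ‖p k - p 0‖ ^ 2 := by
      rw [← hsq, ← map_mul, hO2, Complex.normSq_eq_norm_sq, norm_sub_rev]
    rw [h1, ← h2, Real.sin_two_mul]
    field_simp
  have hb := dido_trans p O k
  unfold pbul at hb
  rw [hcr] at hb
  have hpb : parea (fun j => p j - O) k = pbul p k +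
      ‖p k - p 0‖ ^ 2 * (cos θ / sin θ) / 4 := by
    unfold pbul
    have h3 : ‖p k - p 0‖ ^ 2 * (2 * sin θ * cos θ) / (4 * sin θ ^ 2) / 2 =
        ‖p k - p 0‖ ^ 2 * (cos θ / sin θ) / 4 := by
      field_simp
    linarith
  rw [hpb] at key
  have h6 : (M : ℝ) ^ 2 * (θ * (cos θ / sin θ) * ‖p k - p 0‖ ^ 2 + 4 * π / M * pbul p k) =
      4 * π * (M * (pbul p k + ‖p k - p 0‖ ^ 2 * (cos θ / sin θ) / 4)) := by
    have h7 : (M : ℝ) * θ = π := by
      rw [hθ]
      field_simp
    have h8 : (M : ℝ) ^ 2 * (4 * π / M * pbul p k) = 4 * π * (M * pbul p k) := by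
      field_simp
    rw [mul_add, h8]
    linear_combination (M : ℝ) * (cos θ / sin θ) * ‖p k - p 0‖ ^ 2 * h7
  have h9 : (M : ℝ) ^ 2 * (θ * (cos θ / sin θ) * ‖p k - p 0‖ ^ 2 + 4 * π / M * pbul p k) ≤
      (M : ℝ) ^ 2 * plen p k ^ 2 := by
    rw [h6, ← mul_pow]
    exact key
  exact le_of_mul_le_mul_left h9 (by positivity)

theorem dido (p : ℕ → ℂ) (k : ℕ) (M : ℕ) (hM : 2 ≤ M) :
    π / M * (cos (π / M) / sin (π / M)) * ‖p k - p 0‖ ^ 2 + 4 * π / M * |pbul p k| ≤
      plen p k ^ 2 := by
  rcases Nat.eq_zero_or_pos k with rfl | hk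
  · have h1 : pbul p 0 = 0 := by
      unfold pbul parea cr
      simp only [Finset.range_zero, Finset.sum_empty]
      ring
    rw [h1, sub_self, norm_zero, abs_zero]
    unfold plen
    simp
  · rcases le_total 0 (pbul p k) with h | h
    · rw [abs_of_nonneg h]
      exact dido_one p k hk M hM
    · rw [abs_of_nonpos h]
      have h1 := dido_one (fun j => (starRingEnd ℂ) (p j)) k hk M hM
      have h2 : pbul (fun j => (starRingEnd ℂ) (p j)) k = - pbul p k := by
        unfold pbul parea cr
        simp only [Complex.conj_re, Complex.conj_im]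
        have h3 : ∑ j ∈ range k, ((p j).re * -(p (j + 1)).im - -(p j).im * (p (j + 1)).re) =
            - ∑ j ∈ range k, ((p j).re * (p (j + 1)).im - (p j).im * (p (j + 1)).re) := by
          rw [← Finset.sum_neg_distrib]
          refine Finset.sum_congr rfl fun j _ => ?_
          ring
        rw [h3]
        ring
      have h3 : plen (fun j => (starRingEnd ℂ) (p j)) k = plen p k := by
        unfold plen
        refine Finset.sum_congr rfl fun j _ => ?_
        rw [← map_sub, RCLike.norm_conj]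
      rw [h2, h3, ← map_sub, RCLike.norm_conj] at h1
      exact h1

end Pool.Agent.Helper98.LC
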