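import Pool.Agent.Helper98.LC.G.Paths

/-!
# LC-G22: reflected paths, chords and roofs

A system of closed paths as in `Paths`.
* `iso_reflect`: replace for `e ∈ R` the path by the path reflected at the midpoint of its chord and reversed:
  `p' e j = p e 0 + p e (k e) - p e (k e - j)` for `j ≤ k e` (same end points, same length, `pbul (p' e) (k e) = - pbul (p e) (k e)`:
  `pbul` is translation invariant, changes the sign under reversal and not under `z ↦ -z`).  So the area changes by
  `- 2 ∑ e ∈ R, pbul`.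
* `iso_chords`: replace for `e ∈ R` the path by its chord (`k' e = 1`): the area changes by `- ∑ e ∈ R, pbul`.
* `iso_roof`: all paths are replaced by their chords (area `∑ parea - ∑ pbul`), and for `e ∈ O` by the two segments
  `A, P, B` with `A = p e 0`, `B = p e (k e)`, `P = (A + B)/2 - i t (B - A)/2` (outside = right side of the chord):
  `|P - A| = |P - B| = |B - A| √(1+t²) / 2`, `cr A P + cr P B - cr A B = |B - A|² t / 2` (so the area increases by
  `|B - A|² t / 4`; check the sign: for `A = 0, B = 1`: `P = 1/2 - i t/2`, `cr A P + cr P B = 0 + (0·1/2 - (-t/2)·1) = t/2`).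
  The number of segments is `card E + card O`: `iso_paths_n`.
* `chords_small`: `paths_small` for the chords.
-/

namespace Pool.Agent.Helper98.LC

open Finset Real

variable {E : Type} [Fintype E] [DecidableEq E]

private theorem rev_parea (p : ℕ → ℂ) (k : ℕ) (hk : 1 ≤ k) :
    parea (fun j => p 0 + p k - p (k - j)) k = parea p k - 2 * pbul p k := by
  have h1 : ∑ j ∈ range k, cr (p 0 + p k - p (k - j)) (p 0 + p k - p (k - (j + 1))) =
      ∑ i ∈ range k, cr (p 0 + p k - p (i + 1)) (p 0 + p k - p i) := by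
    rw [← Finset.sum_range_reflect (fun i => cr (p 0 + p k - p (i + 1)) (p 0 + p k - p i)) k]
    refine Finset.sum_congr rfl fun j hj => ?_
    have hj' := Finset.mem_range.1 hj
    have e1 : k - 1 - j + 1 = k - j := by omega
    have e2 : k - 1 - j = k - (j + 1) := by omega
    rw [e1, e2]
  have h2 : ∑ i ∈ range k, cr (p 0 + p k - p (i + 1)) (p 0 + p k - p i) =
      2 * cr (p 0) (p k) - ∑ i ∈ range k, cr (p i) (p (i + 1)) := by
    have h3 : ∀ i, cr (p 0 + p k - p (i + 1)) (p 0 + p k - p i) =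
        (cr (p 0 + p k) (p (i + 1)) - cr (p 0 + p k) (p i)) - cr (p i) (p (i + 1)) := by
      intro i
      simp only [cr, Complex.sub_re, Complex.sub_im, Complex.add_re, Complex.add_im]
      ring
    rw [Finset.sum_congr rfl fun i _ => h3 i, Finset.sum_sub_distrib,
      Finset.sum_range_sub (fun i => cr (p 0 + p k) (p i)) k]
    simp only [cr, Complex.add_re, Complex.add_im]
    ring
  unfold pbul parea
  rw [h1, h2]
  ring

private theorem rev_plen (p : ℕ → ℂ) (k : ℕ) :
    plen (fun j => p 0 + p k - p (k - j)) k = plen p k := by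
  unfold plen
  rw [← Finset.sum_range_reflect (fun i => ‖p (i + 1) - p i‖) k]
  refine Finset.sum_congr rfl fun j hj => ?_
  have hj' := Finset.mem_range.1 hj
  have e1 : k - 1 - j + 1 = k - j := by omega
  have e2 : k - 1 - j = k - (j + 1) := by omega
  dsimp only
  rw [e1, e2]
  congr 1
  ring

private theorem one_parea (p : ℕ → ℂ) : parea p 1 = cr (p 0) (p 1) / 2 := by
  unfold parea
  rw [Finset.sum_range_one]

private theorem one_plen (p : ℕ → ℂ) : plen p 1 = ‖p 1 - p 0‖ := by
  unfold plen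
  rw [Finset.sum_range_one]

private theorem two_parea (p : ℕ → ℂ) :
    parea p 2 = (cr (p 0) (p 1) + cr (p 1) (p 2)) / 2 := by
  unfold parea
  rw [Finset.sum_range_succ, Finset.sum_range_one]

private theorem two_plen (p : ℕ → ℂ) : plen p 2 = ‖p 1 - p 0‖ + ‖p 2 - p 1‖ := by
  unfold plen
  rw [Finset.sum_range_succ, Finset.sum_range_one]

/-- the tip of the roof -/
private noncomputable def apex (A B : ℂ) (t : ℝ) : ℂ :=
  ((A + B) / 2) - Complex.I * (t : ℂ) * ((B - A) / 2)

private theorem apex_area (A B : ℂ) (t : ℝ) :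
    cr A (apex A B t) + cr (apex A B t) B = cr A B + ‖B - A‖ ^ 2 * t / 2 := by
  rw [Complex.sq_norm, Complex.normSq_apply]
  have h1 : (apex A B t).re = (A.re + B.re) / 2 + t * ((B.im - A.im) / 2) := by
    unfold apex
    have : ((A + B) / 2 - Complex.I * (t : ℂ) * ((B - A) / 2)) =
      (⟨(A.re + B.re) / 2 + t * ((B.im - A.im) / 2), (A.im + B.im) / 2 - t * ((B.re - A.re) / 2)⟩ : ℂ) := by
      apply Complex.ext <;> simp
    rw [this]
  have h2 : (apex A B t).im = (A.im + B.im) / 2 - t * ((B.re - A.re) / 2) := by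
    unfold apex
    have : ((A + B) / 2 - Complex.I * (t : ℂ) * ((B - A) / 2)) =
      (⟨(A.re + B.re) / 2 + t * ((B.im - A.im) / 2), (A.im + B.im) / 2 - t * ((B.re - A.re) / 2)⟩ : ℂ) := by
      apply Complex.ext <;> simp
    rw [this]
  simp only [cr, h1, h2, Complex.sub_re, Complex.sub_im]
  ring

private theorem norm_half (t : ℝ) (c : ℂ) (u : ℂ) (hu : Complex.normSq u = 1 + t ^ 2) :
    ‖u * (c / 2)‖ = ‖c‖ * √(1 + t ^ 2) / 2 := by
  have h : ‖u‖ = √(1 + t ^ 2) := by
    rw [← hu, Complex.normSq_eq_norm_sq, Real.sqrt_sq (norm_nonneg u)]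
  rw [norm_mul, norm_div, h]
  have : ‖(2 : ℂ)‖ = 2 := by simp
  rw [this]
  ring

private theorem apex_len (A B : ℂ) (t : ℝ) :
    ‖apex A B t - A‖ + ‖B - apex A B t‖ = ‖B - A‖ * √(1 + t ^ 2) := by
  have h1 : apex A B t - A = (1 - Complex.I * (t : ℂ)) * ((B - A) / 2) := by
    unfold apex
    ring
  have h2 : B - apex A B t = (1 + Complex.I * (t : ℂ)) * ((B - A) / 2) := by
    unfold apex
    ring
  rw [h1, h2, norm_half t (B - A), norm_half t (B - A)]
  · ring
  · rw [Complex.normSq_apply]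
    simp
    ring
  · rw [Complex.normSq_apply]
    simp
    ring

theorem iso_reflect (s : Equiv.Perm E) (k : E → ℕ) (p : E → ℕ → ℂ)
    (hk : ∀ e, 1 ≤ k e) (hp : ∀ e, p e (k e) = p (s e) 0) (R : Finset E) :
    4 * π * (∑ e, parea (p e) (k e) - 2 * ∑ e ∈ R, pbul (p e) (k e)) ≤
      (∑ e, plen (p e) (k e)) ^ 2 := by
  classical
  let p' : E → ℕ → ℂ := fun e => if e ∈ R then (fun j => p e 0 + p e (k e) - p e (k e - j)) else p e
  have hp1 : ∀ e ∈ R, p' e = fun j => p e 0 + p e (k e) - p e (k e - j) := fun e he => if_pos he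
  have hp2 : ∀ e, e ∉ R → p' e = p e := fun e he => if_neg he
  have h0 : ∀ e, p' e 0 = p e 0 := by
    intro e
    by_cases he : e ∈ R
    · rw [hp1 e he]
      dsimp only
      rw [Nat.sub_zero]
      ring
    · rw [hp2 e he]
  have hK : ∀ e, p' e (k e) = p e (k e) := by
    intro e
    by_cases he : e ∈ R
    · rw [hp1 e he]
      dsimp only
      rw [Nat.sub_self]
      ring
    · rw [hp2 e he]
  have h := iso_paths s k p' hk fun e => by rw [hK, h0, hp]
  have ha : ∀ e, parea (p' e) (k e) = parea (p e) (k e) - if e ∈ R then 2 * pbul (p e) (k e) else 0 := by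
    intro e
    by_cases he : e ∈ R
    · rw [hp1 e he, rev_parea _ _ (hk e), if_pos he]
    · rw [hp2 e he, if_neg he, sub_zero]
  have hl : ∀ e, plen (p' e) (k e) = plen (p e) (k e) := by
    intro e
    by_cases he : e ∈ R
    · rw [hp1 e he, rev_plen]
    · rw [hp2 e he]
  simp only [ha, hl] at h
  rw [Finset.sum_sub_distrib, Finset.sum_ite_mem, Finset.univ_inter, ← Finset.mul_sum] at h
  exact h

theorem iso_chords (s : Equiv.Perm E) (k : E → ℕ) (p : E → ℕ → ℂ)
    (hk : ∀ e, 1 ≤ k e) (hp : ∀ e, p e (k e) = p (s e) 0) (R : Finset E) :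
    4 * π * |∑ e, parea (p e) (k e) - ∑ e ∈ R, pbul (p e) (k e)| ≤
      (∑ e ∈ univ \ R, plen (p e) (k e) + ∑ e ∈ R, ‖p e (k e) - p e 0‖) ^ 2 := by
  classical
  let p' : E → ℕ → ℂ := fun e => if e ∈ R then (fun j => if j = 0 then p e 0 else p e (k e)) else p e
  let k' : E → ℕ := fun e => if e ∈ R then 1 else k e
  have hp1 : ∀ e ∈ R, p' e = fun j => if j = 0 then p e 0 else p e (k e) := fun e he => if_pos he
  have hp2 : ∀ e, e ∉ R → p' e = p e := fun e he => if_neg he
  have hk1 : ∀ e ∈ R, k' e = 1 := fun e he => if_pos he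
  have hk2 : ∀ e, e ∉ R → k' e = k e := fun e he => if_neg he
  have h0 : ∀ e, p' e 0 = p e 0 := by
    intro e
    by_cases he : e ∈ R
    · rw [hp1 e he]
      dsimp only
      rw [if_pos rfl]
    · rw [hp2 e he]
  have hK : ∀ e, p' e (k' e) = p e (k e) := by
    intro e
    by_cases he : e ∈ R
    · rw [hp1 e he, hk1 e he]
      dsimp only
      rw [if_neg one_ne_zero]
    · rw [hp2 e he, hk2 e he]
  have hk' : ∀ e, 1 ≤ k' e := by
    intro e
    by_cases he : e ∈ R
    · rw [hk1 e he]
    · rw [hk2 e he]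
      exact hk e
  have h := iso_paths_abs s k' p' hk' fun e => by rw [hK, h0, hp]
  have ha : ∀ e, parea (p' e) (k' e) = parea (p e) (k e) - if e ∈ R then pbul (p e) (k e) else 0 := by
    intro e
    by_cases he : e ∈ R
    · rw [hp1 e he, hk1 e he, if_pos he, one_parea, if_pos rfl, if_neg one_ne_zero]
      unfold pbul
      ring
    · rw [hp2 e he, hk2 e he, if_neg he, sub_zero]
  have hl : ∑ e, plen (p' e) (k' e) =
      ∑ e ∈ univ \ R, plen (p e) (k e) + ∑ e ∈ R, ‖p e (k e) - p e 0‖ := by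
    rw [← Finset.sum_sdiff (Finset.subset_univ R)]
    congr 1
    · refine Finset.sum_congr rfl fun e he => ?_
      have he' : e ∉ R := (Finset.mem_sdiff.1 he).2
      rw [hp2 e he', hk2 e he']
    · refine Finset.sum_congr rfl fun e he => ?_
      rw [hp1 e he, hk1 e he, one_plen, if_pos rfl, if_neg one_ne_zero]
  rw [hl] at h
  simp only [ha] at h
  rw [Finset.sum_sub_distrib, Finset.sum_ite_mem, Finset.univ_inter] at h
  exact h

theorem iso_roof (s : Equiv.Perm E) (k : E → ℕ) (p : E → ℕ → ℂ)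
    (hk : ∀ e, 1 ≤ k e) (hp : ∀ e, p e (k e) = p (s e) 0) (O : Finset E) (t : ℝ) (ht : 0 ≤ t)
    (h3 : 3 ≤ Fintype.card E + O.card) :
    4 * (Fintype.card E + O.card : ℝ) * tan (π / (Fintype.card E + O.card : ℝ)) *
      (∑ e, parea (p e) (k e) - ∑ e, pbul (p e) (k e) +
        ∑ e ∈ O, ‖p e (k e) - p e 0‖ ^ 2 * t / 4) ≤
      (∑ e ∈ univ \ O, ‖p e (k e) - p e 0‖ +
        ∑ e ∈ O, ‖p e (k e) - p e 0‖ * √(1 + t ^ 2)) ^ 2 := by
  classical
  let p' : E → ℕ → ℂ := fun e j => if j = 0 then p e 0 else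
    if j = 1 ∧ e ∈ O then apex (p e 0) (p e (k e)) t else p e (k e)
  let k' : E → ℕ := fun e => if e ∈ O then 2 else 1
  have hk1 : ∀ e ∈ O, k' e = 2 := fun e he => if_pos he
  have hk2 : ∀ e, e ∉ O → k' e = 1 := fun e he => if_neg he
  have h0 : ∀ e, p' e 0 = p e 0 := fun e => if_pos rfl
  have h1 : ∀ e ∈ O, p' e 1 = apex (p e 0) (p e (k e)) t := by
    intro e he
    have : p' e 1 = if (1 : ℕ) = 0 then p e 0 else
      if (1 : ℕ) = 1 ∧ e ∈ O then apex (p e 0) (p e (k e)) t else p e (k e) := rfl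
    rw [this, if_neg one_ne_zero, if_pos ⟨rfl, he⟩]
  have h1' : ∀ e, e ∉ O → p' e 1 = p e (k e) := by
    intro e he
    have : p' e 1 = if (1 : ℕ) = 0 then p e 0 else
      if (1 : ℕ) = 1 ∧ e ∈ O then apex (p e 0) (p e (k e)) t else p e (k e) := rfl
    rw [this, if_neg one_ne_zero, if_neg fun h => he h.2]
  have h2 : ∀ e, p' e 2 = p e (k e) := by
    intro e
    have : p' e 2 = if (2 : ℕ) = 0 then p e 0 else
      if (2 : ℕ) = 1 ∧ e ∈ O then apex (p e 0) (p e (k e)) t else p e (k e) := rfl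
    rw [this, if_neg two_ne_zero, if_neg fun h => absurd h.1 (by norm_num)]
  have hK : ∀ e, p' e (k' e) = p e (k e) := by
    intro e
    by_cases he : e ∈ O
    · rw [hk1 e he, h2]
    · rw [hk2 e he, h1' e he]
  have hk' : ∀ e, 1 ≤ k' e := by
    intro e
    by_cases he : e ∈ O
    · rw [hk1 e he]
      norm_num
    · rw [hk2 e he]
  have hsum : ∑ e, k' e = Fintype.card E + O.card := by
    have : ∀ e, k' e = 1 + if e ∈ O then 1 else 0 := by
      intro e
      by_cases he : e ∈ O
      · rw [hk1 e he, if_pos he]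
      · rw [hk2 e he, if_neg he]
    rw [Finset.sum_congr rfl fun e _ => this e, Finset.sum_add_distrib, Finset.sum_ite_mem,
      Finset.univ_inter, Finset.sum_const, Finset.sum_const, smul_eq_mul, smul_eq_mul, mul_one,
      mul_one, Finset.card_univ]
  have h := iso_paths_n s k' p' hk' (fun e => by rw [hK, h0, hp]) (by rw [hsum]; exact h3)
  have ha : ∀ e, parea (p' e) (k' e) = parea (p e) (k e) - pbul (p e) (k e) +
      if e ∈ O then ‖p e (k e) - p e 0‖ ^ 2 * t / 4 else 0 := by
    intro e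
    by_cases he : e ∈ O
    · rw [hk1 e he, if_pos he, two_parea, h0, h1 e he, h2, apex_area]
      unfold pbul
      ring
    · rw [hk2 e he, if_neg he, one_parea, h0, h1' e he]
      unfold pbul
      ring
  have hl : ∑ e, plen (p' e) (k' e) =
      ∑ e ∈ univ \ O, ‖p e (k e) - p e 0‖ + ∑ e ∈ O, ‖p e (k e) - p e 0‖ * √(1 + t ^ 2) := by
    rw [← Finset.sum_sdiff (Finset.subset_univ O)]
    congr 1
    · refine Finset.sum_congr rfl fun e he => ?_
      have he' : e ∉ O := (Finset.mem_sdiff.1 he).2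
      rw [hk2 e he', one_plen, h0, h1' e he']
    · refine Finset.sum_congr rfl fun e he => ?_
      rw [hk1 e he, two_plen, h0, h1 e he, h2, apex_len]
  rw [hl, hsum] at h
  simp only [ha] at h
  rw [Finset.sum_add_distrib, Finset.sum_sub_distrib, Finset.sum_ite_mem, Finset.univ_inter] at h
  push_cast at h
  exact h

theorem chords_small (s : Equiv.Perm E) (k : E → ℕ) (p : E → ℕ → ℂ)
    (hk : ∀ e, 1 ≤ k e) (hp : ∀ e, p e (k e) = p (s e) 0) (h2 : Fintype.card E ≤ 2) :
    ∑ e, pbul (p e) (k e) = ∑ e, parea (p e) (k e) := by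
  let p' : E → ℕ → ℂ := fun e j => if j = 0 then p e 0 else p e (k e)
  have h0 : ∀ e, p' e 0 = p e 0 := fun e => if_pos rfl
  have h1 : ∀ e, p' e 1 = p e (k e) := fun e => if_neg one_ne_zero
  have h := paths_small s (fun _ => 1) p' (fun _ => le_refl 1) (fun e => by rw [h0, h1, hp])
    (by rw [Finset.sum_const, smul_eq_mul, mul_one, Finset.card_univ]; exact h2)
  have ha : ∀ e, parea (p' e) 1 = parea (p e) (k e) - pbul (p e) (k e) := by
    intro e
    rw [one_parea, h0, h1]
    unfold pbul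
    ring
  simp only [ha] at h
  rw [Finset.sum_sub_distrib] at h
  linarith

end Pool.Agent.Helper98.LC
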