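import Pool.Agent.Helper98.LC.Defs

/-!
# LC-G02: the isosceles move

`L = ‖P - A‖ + ‖B - P‖ ≥ c = ‖B - A‖`.
If `c = 0`: `P' = A + L/2`, both sides of the area inequality are `0` (`cr A P + cr P A = 0`).
If `c > 0`: `P' = (A + B)/2 - i h (B - A)/c` with `h = √(L² - c²)/2`; `‖P' - A‖ = ‖B - P'‖ = √(c²/4 + h²) = L/2`;
`cr A P' + cr P' B - cr A B = c h`.  For `P` write `P = A + (u - i v) (B - A)/c` with real `u, v`:
`cr A P + cr P B - cr A B = c v`, `‖P - A‖ = √(u² + v²)`, `‖B - P‖ = √((c-u)² + v²)`, and by the triangle inequality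
`L ≥ √(c² + 4 v²)` (Minkowski: the vectors `(u, v)` and `(c - u, v)`), so `v ≤ h`.
-/

set_option autoImplicit false

namespace Pool.Agent.Helper98.LC

open Finset Real

theorem isosceles (A B P : ℂ) : ∃ P' : ℂ,
    ‖P' - A‖ = (‖P - A‖ + ‖B - P‖) / 2 ∧ ‖B - P'‖ = (‖P - A‖ + ‖B - P‖) / 2 ∧
      cr A P + cr P B ≤ cr A P' + cr P' B := by
  rcases eq_or_ne A B with hAB | hAB
  · subst hAB
    refine ⟨P, ?_, ?_, le_refl _⟩
    · rw [norm_sub_rev A P]; ring
    · rw [norm_sub_rev A P]; ring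
  obtain ⟨L, hL⟩ : ∃ L, L = ‖P - A‖ + ‖B - P‖ := ⟨_, rfl⟩
  obtain ⟨c, hc⟩ : ∃ c, c = ‖B - A‖ := ⟨_, rfl⟩
  have hc0 : 0 < c := by
    rw [hc, norm_pos_iff]
    exact sub_ne_zero.2 hAB.symm
  have hLc : c ≤ L := by
    rw [hc, hL]
    calc ‖B - A‖ = ‖(P - A) + (B - P)‖ := by congr 1; ring
      _ ≤ _ := norm_add_le _ _
  have hL0 : 0 ≤ L := hc0.le.trans hLc
  have hcsq : c ^ 2 = (B.re - A.re) ^ 2 + (B.im - A.im) ^ 2 := by
    rw [hc, Complex.sq_norm, Complex.normSq_apply, Complex.sub_re, Complex.sub_im]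
    ring
  obtain ⟨X, hX⟩ : ∃ X, X = cr (P - A) (B - A) := ⟨_, rfl⟩
  have hMink : c ^ 4 + 4 * X ^ 2 ≤ c ^ 2 * L ^ 2 := by
    have h1 : ‖(P - A) * (starRingEnd ℂ) (B - A) + (starRingEnd ℂ) (B - P) * (B - A)‖ ≤ c * L := by
      refine (norm_add_le _ _).trans (le_of_eq ?_)
      rw [norm_mul, norm_mul, Complex.norm_conj, Complex.norm_conj, hL, ← hc]
      ring
    have h2 : ‖(P - A) * (starRingEnd ℂ) (B - A) + (starRingEnd ℂ) (B - P) * (B - A)‖ ^ 2 =
        c ^ 4 + 4 * X ^ 2 := by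
      have e4 : c ^ 4 = (c ^ 2) ^ 2 := by ring
      rw [Complex.sq_norm, Complex.normSq_apply, e4, hcsq, hX]
      simp only [cr, Complex.add_re, Complex.add_im, Complex.mul_re, Complex.mul_im,
        Complex.conj_re, Complex.conj_im, Complex.sub_re, Complex.sub_im]
      ring
    have h3 := pow_le_pow_left₀ (norm_nonneg _) h1 2
    rw [h2] at h3
    calc c ^ 4 + 4 * X ^ 2 ≤ (c * L) ^ 2 := h3
      _ = _ := by ring
  obtain ⟨h, hh⟩ : ∃ h, h = Real.sqrt (L ^ 2 - c ^ 2) / 2 := ⟨_, rfl⟩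
  have hLcs : 0 ≤ L ^ 2 - c ^ 2 := by nlinarith
  have hh0 : 0 ≤ h := by rw [hh]; positivity
  have hhs : h ^ 2 = (L ^ 2 - c ^ 2) / 4 := by
    rw [hh, div_pow, Real.sq_sqrt hLcs]
    norm_num
  have hhX : X ≤ c * h := by
    refine le_of_sq_le_sq ?_ (mul_nonneg hc0.le hh0)
    rw [mul_pow, hhs]
    nlinarith
  obtain ⟨t, ht⟩ : ∃ t, t = h / c := ⟨_, rfl⟩
  have htc : t * c = h := by rw [ht]; field_simp
  have hLhalf : ∀ x : ℝ, 0 ≤ x → x ^ 2 = L ^ 2 / 4 → x = L / 2 := by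
    intro x hx0 hx
    have h1 : x ^ 2 = (L / 2) ^ 2 := by rw [hx]; ring
    exact (pow_left_inj₀ hx0 (by positivity) two_ne_zero).1 h1
  have hkey : (1 / 4 + t ^ 2) * c ^ 2 = L ^ 2 / 4 := by
    have : t ^ 2 * c ^ 2 = h ^ 2 := by rw [← mul_pow, htc]
    rw [add_mul, this, hhs]
    ring
  refine ⟨(A + B) / 2 - (t : ℂ) * Complex.I * (B - A), ?_, ?_, ?_⟩
  · rw [← hL]
    apply hLhalf _ (norm_nonneg _)
    rw [← hkey, hcsq, Complex.sq_norm, Complex.normSq_apply]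
    simp only [Complex.sub_re, Complex.sub_im, Complex.mul_re, Complex.mul_im, Complex.I_re,
      Complex.I_im, Complex.ofReal_re, Complex.ofReal_im, Complex.add_re, Complex.add_im,
      Complex.div_ofNat_re, Complex.div_ofNat_im]
    ring
  · rw [← hL]
    apply hLhalf _ (norm_nonneg _)
    rw [← hkey, hcsq, Complex.sq_norm, Complex.normSq_apply]
    simp only [Complex.sub_re, Complex.sub_im, Complex.mul_re, Complex.mul_im, Complex.I_re,
      Complex.I_im, Complex.ofReal_re, Complex.ofReal_im, Complex.add_re, Complex.add_im,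
      Complex.div_ofNat_re, Complex.div_ofNat_im]
    ring
  · have h1 : cr A ((A + B) / 2 - (t : ℂ) * Complex.I * (B - A)) +
        cr ((A + B) / 2 - (t : ℂ) * Complex.I * (B - A)) B - (cr A P + cr P B) =
        t * c ^ 2 - X := by
      rw [hcsq, hX]
      simp only [cr, Complex.sub_re, Complex.sub_im, Complex.mul_re, Complex.mul_im, Complex.I_re,
        Complex.I_im, Complex.ofReal_re, Complex.ofReal_im, Complex.add_re, Complex.add_im,
        Complex.div_ofNat_re, Complex.div_ofNat_im]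
      ring
    have h2 : t * c ^ 2 = c * h := by rw [← htc]; ring
    linarith

end Pool.Agent.Helper98.LC
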