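import Pool.Agent.Helper98.LC.G.Picone
import Pool.Agent.Helper98.LC.G.Isosceles

/-!
# LC-G03: the isoperimetric inequality for `n`-gons

`area z = (∑ i, cr (z i) (z (i+1))) / 2`, `len z = ∑ i, ‖z (i+1) - z i‖`, both translation invariant, homogeneous of
degree 2 and 1.
`K = {z | z 0 = 0, len z ≤ 1}` is compact (closed; `‖z i‖ ≤ 1` by the triangle inequality) and nonempty; let `A` be the
maximum of `area` on `K`, and let `z` minimise `∑ ‖z (i+1) - z i‖²` on the compact set `{z ∈ K | area z = A}`.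
Claim: all sides of `z` are equal.  For an index `i` replace `z i` by the `P'` of `isosceles` for `z (i-1)`, `z (i+1)`, `z i`
(`n ≥ 3`: the three indices are different) and translate so that the point `0` is `0` again: length the same, area not smaller, hence
`= A`, and the sum of squares changes from `a² + b²` to `(a + b)²/2`; minimality gives `a = b`.
So the sides are all equal to `ℓ`, `1 ≥ (n ℓ)² = n ∑ side² ≥ 4 n tan (π/n) A` by `quad_ngon`.
General `z`: if `len z = 0` all points are equal and `area z = 0`; otherwise apply the bound to `(z - z 0) / len z`.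
-/

namespace Pool.Agent.Helper98.LC

open Finset Real

private theorem ng_val_succ (n : ℕ) [NeZero n] (hn : 3 ≤ n) (k : ℕ) (hk : k + 1 < n) :
    (⟨k, by omega⟩ : Fin n) + 1 = ⟨k + 1, hk⟩ := by
  apply Fin.ext
  rw [Fin.val_add, Fin.val_one']
  simp only
  rw [Nat.mod_eq_of_lt (by omega : 1 < n), Nat.mod_eq_of_lt hk]

private theorem ng_ne (n : ℕ) [NeZero n] (hn : 3 ≤ n) (i : Fin n) :
    i - 1 ≠ i ∧ i + 1 ≠ i ∧ i + 1 ≠ i - 1 := by
  have h1 : (1 : Fin n) ≠ 0 := by
    intro h
    have := congrArg Fin.val h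
    rw [Fin.val_one', Fin.val_zero, Nat.mod_eq_of_lt (by omega : 1 < n)] at this
    omega
  have h2 : (1 : Fin n) + 1 ≠ 0 := by
    intro h
    have := congrArg Fin.val h
    rw [Fin.val_add, Fin.val_one', Fin.val_zero, Nat.mod_eq_of_lt (by omega : 1 < n),
      Nat.mod_eq_of_lt (by omega : 1 + 1 < n)] at this
    omega
  refine ⟨?_, ?_, ?_⟩
  · intro h
    exact h1 (by rw [sub_eq_iff_eq_add] at h; exact (left_eq_add.1 h))
  · intro h
    exact h1 (add_eq_left.1 h)
  · intro h
    apply h2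
    rw [eq_sub_iff_add_eq, add_assoc] at h
    exact add_eq_left.1 h

private theorem ng_update (n : ℕ) [NeZero n] (hn : 3 ≤ n) (g : ℂ → ℂ → ℝ) (z : Fin n → ℂ)
    (i : Fin n) (P : ℂ) :
    ∑ j, g (Function.update z i P j) (Function.update z i P (j + 1)) =
      ∑ j, g (z j) (z (j + 1)) - g (z (i - 1)) (z i) - g (z i) (z (i + 1)) +
        g (z (i - 1)) P + g P (z (i + 1)) := by
  obtain ⟨h1, h2, h3⟩ := ng_ne n hn i
  have key : ∀ f : Fin n → ℝ, ∑ j, f j = f i + (f (i - 1) +
      ∑ j ∈ (univ.erase i).erase (i - 1), f j) := by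
    intro f
    rw [← Finset.add_sum_erase univ f (Finset.mem_univ i),
      ← Finset.add_sum_erase (univ.erase i) f
        (Finset.mem_erase.2 ⟨h1, Finset.mem_univ _⟩)]
  rw [key (fun j => g (Function.update z i P j) (Function.update z i P (j + 1))),
    key (fun j => g (z j) (z (j + 1)))]
  have e1 : ∑ j ∈ (univ.erase i).erase (i - 1),
      g (Function.update z i P j) (Function.update z i P (j + 1)) =
      ∑ j ∈ (univ.erase i).erase (i - 1), g (z j) (z (j + 1)) := by
    refine Finset.sum_congr rfl fun j hj => ?_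
    rw [Finset.mem_erase, Finset.mem_erase] at hj
    have e2 : j + 1 ≠ i := by
      intro h
      exact hj.1 (eq_sub_of_add_eq h)
    rw [Function.update_of_ne hj.2.1, Function.update_of_ne e2]
  rw [e1]
  simp only [sub_add_cancel, Function.update_self]
  rw [Function.update_of_ne h1, Function.update_of_ne h2]
  ring

private theorem ng_all_eq (n : ℕ) [NeZero n] (hn : 3 ≤ n) (s : Fin n → ℝ)
    (h : ∀ i : Fin n, i ≠ 0 → s (i - 1) = s i) (j : Fin n) : s j = s 0 := by
  obtain ⟨k, hk⟩ := j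
  induction k with
  | zero =>
    refine congrArg s ?_
    apply Fin.ext
    simp
  | succ k ih =>
    have h1 := h ⟨k + 1, hk⟩ (by
      intro h0
      have := congrArg Fin.val h0
      simp at this)
    rw [← ng_val_succ n hn k hk, add_sub_cancel_right] at h1
    rw [← ng_val_succ n hn k hk, ← h1]
    exact ih (by omega)

private theorem ng_bdd (n : ℕ) [NeZero n] (hn : 3 ≤ n) (z : Fin n → ℂ) (R : ℝ)
    (h0 : z 0 = 0) (hL : ∑ i, ‖z (i + 1) - z i‖ ≤ R) (j : Fin n) : ‖z j‖ ≤ n * R := by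
  have hR : 0 ≤ R := le_trans (Finset.sum_nonneg fun i _ => norm_nonneg _) hL
  have hs : ∀ i, ‖z (i + 1) - z i‖ ≤ R := fun i =>
    le_trans (Finset.single_le_sum (f := fun i => ‖z (i + 1) - z i‖)
      (fun i _ => norm_nonneg _) (Finset.mem_univ i)) hL
  obtain ⟨k, hk⟩ := j
  have key : ‖z ⟨k, hk⟩‖ ≤ k * R := by
    induction k with
    | zero =>
      have : (⟨0, hk⟩ : Fin n) = 0 := by
        apply Fin.ext
        simp
      rw [this, h0]
      simp
    | succ k ih =>
      have h1 := ih (by omega)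
      have h2 := hs ⟨k, by omega⟩
      rw [ng_val_succ n hn k hk] at h2
      have h3 : z ⟨k + 1, hk⟩ = z ⟨k, by omega⟩ + (z ⟨k + 1, hk⟩ - z ⟨k, by omega⟩) := by ring
      rw [h3]
      refine (norm_add_le _ _).trans ?_
      push_cast
      linarith
  refine key.trans ?_
  have : (k : ℝ) ≤ n := by exact_mod_cast hk.le
  exact mul_le_mul_of_nonneg_right this hR

private theorem ng_eps (n : ℕ) [NeZero n] (hn : 3 ≤ n) (R ε : ℝ) (hR : 0 ≤ R) (hε : 0 < ε)
    (w : Fin n → ℂ) (hw0 : w 0 = 0) (hwL : ∑ i, ‖w (i + 1) - w i‖ ≤ R) :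
    4 * n * tan (π / n) * ((∑ i, cr (w i) (w (i + 1))) / 2) -
      ε * ∑ i, ‖w (i + 1) - w i‖ ^ 2 ≤ R ^ 2 := by
  have hnpos : (0 : ℝ) < n := by
    have : 0 < n := by omega
    exact_mod_cast this
  have htan : 0 < tan (π / n) := by
    apply tan_pos_of_pos_of_lt_pi_div_two
    · positivity
    · have : (3 : ℝ) ≤ n := by exact_mod_cast hn
      rw [div_lt_div_iff₀ hnpos (by norm_num)]
      nlinarith [pi_pos]
  set c : ℝ := 4 * n * tan (π / n) with hc
  have hcpos : 0 < c := by rw [hc]; positivity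
  set K : Set (Fin n → ℂ) := {z | z 0 = 0 ∧ ∑ i, ‖z (i + 1) - z i‖ ≤ R} with hK
  set Φ : (Fin n → ℂ) → ℝ := fun z => c * ((∑ i, cr (z i) (z (i + 1))) / 2) -
    ε * ∑ i, ‖z (i + 1) - z i‖ ^ 2 with hΦ
  have hcompact : IsCompact K := by
    apply Metric.isCompact_of_isClosed_isBounded
    · have h1 : IsClosed {z : Fin n → ℂ | z 0 = 0} :=
        isClosed_eq (continuous_apply 0) continuous_const
      have h2 : IsClosed {z : Fin n → ℂ | ∑ i, ‖z (i + 1) - z i‖ ≤ R} :=
        isClosed_le (by fun_prop) continuous_const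
      exact h1.inter h2
    · refine (Metric.isBounded_closedBall (x := (0 : Fin n → ℂ)) (r := n * R)).subset ?_
      intro z hz
      rw [mem_closedBall_zero_iff, pi_norm_le_iff_of_nonneg (by positivity)]
      exact fun j => ng_bdd n hn z R hz.1 hz.2 j
  have hcont : Continuous Φ := by
    rw [hΦ]
    unfold cr
    fun_prop
  obtain ⟨z, hzK, hmax⟩ := hcompact.exists_isMaxOn ⟨w, hw0, hwL⟩ hcont.continuousOn
  have hside : ∀ i : Fin n, i ≠ 0 → ‖z (i - 1 + 1) - z (i - 1)‖ = ‖z (i + 1) - z i‖ := by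
    intro i hi
    rw [sub_add_cancel]
    obtain ⟨P, hP1, hP2, hP3⟩ := isosceles (z (i - 1)) (z (i + 1)) (z i)
    set a := ‖z i - z (i - 1)‖ with ha
    set b := ‖z (i + 1) - z i‖ with hb
    have hL := ng_update n hn (fun u v => ‖v - u‖) z i P
    have hQ := ng_update n hn (fun u v => ‖v - u‖ ^ 2) z i P
    have hA := ng_update n hn (fun u v => cr u v) z i P
    rw [← ha, ← hb, hP1, hP2] at hL
    rw [← ha, ← hb, hP1, hP2] at hQ
    have hmem : Function.update z i P ∈ K := by
      refine ⟨?_, ?_⟩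
      · rw [Function.update_of_ne hi.symm]
        exact hzK.1
      · rw [hL]
        have := hzK.2
        linarith
    have h1 : Φ (Function.update z i P) ≤ Φ z := hmax hmem
    rw [hΦ] at h1
    simp only at h1
    rw [hQ, hA] at h1
    have h2 : c * ((∑ i, cr (z i) (z (i + 1))) / 2) ≤
        c * ((∑ j, cr (z j) (z (j + 1)) - cr (z (i - 1)) (z i) - cr (z i) (z (i + 1)) +
          cr (z (i - 1)) P + cr P (z (i + 1))) / 2) := by
      apply mul_le_mul_of_nonneg_left _ hcpos.le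
      linarith
    have h3 : ε * (a - b) ^ 2 ≤ 0 := by
      nlinarith
    have h4 : (a - b) ^ 2 ≤ 0 := by
      by_contra h5
      push Not at h5
      have := mul_pos hε h5
      linarith
    have h5 : a - b = 0 := by
      have := sq_nonneg (a - b)
      exact pow_eq_zero_iff (two_ne_zero) |>.1 (le_antisymm h4 this)
    linarith
  have hall := ng_all_eq n hn (fun i => ‖z (i + 1) - z i‖) hside
  set s := ‖z (0 + 1) - z 0‖ with hs
  have hL : ∑ i, ‖z (i + 1) - z i‖ = n * s := by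
    rw [Finset.sum_congr rfl (fun i _ => hall i), Finset.sum_const, Finset.card_univ,
      Fintype.card_fin, nsmul_eq_mul]
  have hQ : ∑ i, ‖z (i + 1) - z i‖ ^ 2 = n * s ^ 2 := by
    rw [Finset.sum_congr rfl (fun i _ => by rw [hall i]), Finset.sum_const, Finset.card_univ,
      Fintype.card_fin, nsmul_eq_mul]
  have h1 := quad_ngon n hn z
  rw [hQ] at h1
  have h2 : c * ((∑ i, cr (z i) (z (i + 1))) / 2) ≤ (n * s) ^ 2 := by
    have h3 : c * ((∑ i, cr (z i) (z (i + 1))) / 2) =
        n * (4 * tan (π / n) * ((∑ i, cr (z i) (z (i + 1))) / 2)) := by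
      rw [hc]; ring
    rw [h3]
    calc (n : ℝ) * (4 * tan (π / n) * ((∑ i, cr (z i) (z (i + 1))) / 2)) ≤ n * (n * s ^ 2) :=
          mul_le_mul_of_nonneg_left h1 hnpos.le
      _ = (n * s) ^ 2 := by ring
  have h3 : (n * s) ^ 2 ≤ R ^ 2 := by
    have h4 := hzK.2
    rw [hL] at h4
    have h5 : 0 ≤ n * s := mul_nonneg hnpos.le (norm_nonneg _)
    exact pow_le_pow_left₀ h5 h4 2
  have h4 : Φ w ≤ Φ z := hmax ⟨hw0, hwL⟩
  rw [hΦ] at h4
  simp only at h4
  have h5 : 0 ≤ ε * ∑ i, ‖z (i + 1) - z i‖ ^ 2 :=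
    mul_nonneg hε.le (Finset.sum_nonneg fun i _ => sq_nonneg _)
  linarith

private theorem ng_trans (n : ℕ) [NeZero n] (z : Fin n → ℂ) (a : ℂ) :
    ∑ i, cr (z i - a) (z (i + 1) - a) = ∑ i, cr (z i) (z (i + 1)) := by
  have h1 : ∑ i, cr a (z (i + 1)) = ∑ i, cr a (z i) :=
    Fintype.sum_equiv (Equiv.addRight (1 : Fin n)) _ _ (fun i => rfl)
  have h2 : ∀ i, cr (z i - a) (z (i + 1) - a) =
      cr (z i) (z (i + 1)) + (cr a (z i) - cr a (z (i + 1))) := by
    intro i
    simp only [cr, Complex.sub_re, Complex.sub_im]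
    ring
  rw [Finset.sum_congr rfl (fun i _ => h2 i), Finset.sum_add_distrib, Finset.sum_sub_distrib, h1]
  ring

theorem ngon (n : ℕ) [NeZero n] (hn : 3 ≤ n) (z : Fin n → ℂ) :
    4 * n * tan (π / n) * ((∑ i, cr (z i) (z (i + 1))) / 2) ≤
      (∑ i, ‖z (i + 1) - z i‖) ^ 2 := by
  set R := ∑ i, ‖z (i + 1) - z i‖ with hR
  have hR0 : 0 ≤ R := Finset.sum_nonneg fun i _ => norm_nonneg _
  have hw : ∑ i, ‖(z (i + 1) - z 0) - (z i - z 0)‖ = R := by
    rw [hR]
    refine Finset.sum_congr rfl fun i _ => ?_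
    rw [sub_sub_sub_cancel_right]
  have key : ∀ ε > 0, 4 * n * tan (π / n) * ((∑ i, cr (z i) (z (i + 1))) / 2) ≤
      R ^ 2 + ε * ∑ i, ‖(z (i + 1) - z 0) - (z i - z 0)‖ ^ 2 := by
    intro ε hε
    have h1 := ng_eps n hn R ε hR0 hε (fun i => z i - z 0) (sub_self _) hw.le
    rw [ng_trans] at h1
    linarith
  set Q := ∑ i, ‖(z (i + 1) - z 0) - (z i - z 0)‖ ^ 2 with hQ
  have hQ0 : 0 ≤ Q := Finset.sum_nonneg fun i _ => sq_nonneg _
  apply le_of_forall_pos_le_add
  intro δ hδ
  have h1 := key (δ / (Q + 1)) (by positivity)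
  have h2 : δ / (Q + 1) * Q ≤ δ := by
    rw [div_mul_eq_mul_div, div_le_iff₀ (by positivity)]
    nlinarith
  linarith

end Pool.Agent.Helper98.LC
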