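import Pool.Agent.Helper98.LC.Defs

/-!
# LC-G01: the quadratic form inequality for closed `n`-gons

Let `θ = π / n`, indices modulo `n` (`Fin n`, `i + 1` cyclic).  Both sides are translation invariant (the sum of
`cr` of a constant with the telescoping differences is `0`), so assume `z 0 = 0`.  Work with `z : ℕ → ℂ`, `z 0 = z n = 0`.
`cr a b = Im (conj a * b)`, `‖b - a‖² = ‖a‖² + ‖b‖² - 2 Re (conj a * b)`, `1 - i tan θ = e^{-iθ} / cos θ`.  So
`∑ ‖z (i+1) - z i‖² - 2 tan θ ∑ cr (z i) (z (i+1)) = 2 ∑ ‖z i‖² - (2 / cos θ) ∑ Re (conj (z i) z (i+1) e^{-iθ})`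
`= 2 ∑ ‖y i‖² - (2 / cos θ) ∑ Re (conj (y i) y (i+1))` with `y i = e^{-iθ i} z i`, `y 0 = y n = 0`.
With `g i = sin (θ i) > 0` for `0 < i < n`, `g (i-1) + g (i+1) = 2 cos θ g i`, `g 0 = g n = 0`:
`0 ≤ ∑_{i=1}^{n-2} ‖√(g (i+1) / g i) y i - √(g i / g (i+1)) y (i+1)‖²
   = ∑_{i=1}^{n-2} (g (i+1)/g i ‖y i‖² + g i/g (i+1) ‖y (i+1)‖² - 2 Re (conj (y i) y (i+1)))`
`= 2 cos θ ∑_{i=1}^{n-1} ‖y i‖² - 2 ∑_{i=1}^{n-2} Re (conj (y i) y (i+1))`
(coefficient of `‖y i‖²`: `(g (i+1) + g (i-1)) / g i`, where for `i = n-1` and `i = 1` the missing term is `g n = 0`, `g 0 = 0`).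
Multiply by `1 / cos θ > 0` (`n ≥ 3`).  [One can avoid the square roots:
`2 Re (conj a b) ≤ (g (i+1)/g i) ‖a‖² + (g i / g (i+1)) ‖b‖²`.]
-/

namespace Pool.Agent.Helper98.LC

open Finset Real

/-- the scalar product -/
private noncomputable def dt (a b : ℂ) : ℝ := a.re * b.re + a.im * b.im

private theorem nsq (a : ℂ) : ‖a‖ ^ 2 = a.re ^ 2 + a.im ^ 2 := by
  rw [← Complex.normSq_eq_norm_sq, Complex.normSq_apply]
  ring

private theorem key_ineq (a b : ℂ) (c s t : ℝ) (hcs : c ^ 2 + s ^ 2 = 1) (ht : 0 < t) :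
    2 * (dt a b * c + cr a b * s) ≤ t * ‖a‖ ^ 2 + t⁻¹ * ‖b‖ ^ 2 := by
  rw [nsq, nsq]
  unfold dt cr
  obtain ⟨u, hu⟩ : ∃ u, u = t⁻¹ := ⟨_, rfl⟩
  have htu : t * u = 1 := by rw [hu]; exact mul_inv_cancel₀ ht.ne'
  rw [← hu]
  have hu0 : 0 < u := by rw [hu]; exact inv_pos.2 ht
  have h1 : 0 ≤ u * ((t * a.re - (b.re * c + b.im * s)) ^ 2 +
      (t * a.im - (b.im * c - b.re * s)) ^ 2) := by positivity
  have h2 : u * ((t * a.re - (b.re * c + b.im * s)) ^ 2 +
      (t * a.im - (b.im * c - b.re * s)) ^ 2) =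
      t * (a.re ^ 2 + a.im ^ 2) + u * (b.re ^ 2 + b.im ^ 2) -
      2 * ((a.re * b.re + a.im * b.im) * c + (a.re * b.im - a.im * b.re) * s) := by
    have e1 : u * ((t * a.re - (b.re * c + b.im * s)) ^ 2 +
      (t * a.im - (b.im * c - b.re * s)) ^ 2) =
      (t * u) * t * (a.re ^ 2 + a.im ^ 2) + u * (b.re ^ 2 + b.im ^ 2) * (c ^ 2 + s ^ 2) -
      2 * (t * u) * ((a.re * b.re + a.im * b.im) * c + (a.re * b.im - a.im * b.re) * s) := by ring
    rw [e1, htu, hcs]
    ring
  linarith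

private theorem nsub (a b : ℂ) : ‖b - a‖ ^ 2 = ‖a‖ ^ 2 + ‖b‖ ^ 2 - 2 * dt a b := by
  rw [nsq, nsq, nsq]
  unfold dt
  simp only [Complex.sub_re, Complex.sub_im]
  ring

private theorem core (n : ℕ) (hn : 3 ≤ n) (w : ℕ → ℂ) (h0 : w 0 = 0) (hnn : w n = 0) :
    0 ≤ ∑ i ∈ range n, (‖w (i + 1) - w i‖ ^ 2 - 2 * tan (π / n) * cr (w i) (w (i + 1))) := by
  have hn0 : (0 : ℝ) < n := by
    have : 0 < n := by omega
    exact_mod_cast this
  have hn3 : (3 : ℝ) ≤ n := by exact_mod_cast hn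
  set θ : ℝ := π / n with hθ
  have hθ0 : 0 < θ := div_pos pi_pos hn0
  have hθn : θ * n = π := by rw [hθ]; field_simp
  have hθ2 : θ < π / 2 := by
    rw [hθ, div_lt_div_iff₀ hn0 (by norm_num)]
    nlinarith [pi_pos]
  have hc : 0 < cos θ := cos_pos_of_mem_Ioo ⟨by linarith, hθ2⟩
  have hg : ∀ i : ℕ, 0 < i → i < n → 0 < sin (θ * i) := by
    intro i hi hin
    have hi' : (0 : ℝ) < i := by exact_mod_cast hi
    have hin' : (i : ℝ) < n := by exact_mod_cast hin
    refine sin_pos_of_pos_of_lt_pi (by positivity) ?_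
    rw [← hθn]
    exact mul_lt_mul_of_pos_left hin' hθ0
  have hgn : sin (θ * n) = 0 := by rw [hθn, sin_pi]
  let a : ℕ → ℝ := fun i => ‖w i‖ ^ 2
  have ha0 : a 0 = 0 := by simp [a, h0]
  have han : a n = 0 := by simp [a, hnn]
  let c : ℕ → ℝ := fun i => a i * (1 - sin (θ * (i + 1)) / sin (θ * i) / cos θ)
  let d : ℕ → ℝ := fun i => a i * (1 - sin (θ * (i - 1)) / sin (θ * i) / cos θ)
  have hterm : ∀ i ∈ range n, c i + d (i + 1) ≤
      ‖w (i + 1) - w i‖ ^ 2 - 2 * tan θ * cr (w i) (w (i + 1)) := by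
    intro i hi
    rw [mem_range] at hi
    rcases Nat.eq_zero_or_pos i with h | h
    · subst h
      have e1 : cr (w 0) (w (0 + 1)) = 0 := by rw [h0]; simp [cr]
      rw [e1, h0]
      simp [c, d, a, h0]
    · rcases Nat.lt_or_ge (i + 1) n with h' | h'
      · have hgi := hg i h hi
        have hgi' := hg (i + 1) (Nat.succ_pos i) h'
        push_cast at hgi'
        have hk := key_ineq (w i) (w (i + 1)) (cos θ) (sin θ)
          (sin (θ * (i + 1)) / sin (θ * i)) (by rw [add_comm]; exact sin_sq_add_cos_sq θ)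
          (div_pos hgi' hgi)
        have e1 : ‖w (i + 1) - w i‖ ^ 2 - 2 * tan θ * cr (w i) (w (i + 1)) =
            a i + a (i + 1) - 2 * (dt (w i) (w (i + 1)) * cos θ +
              cr (w i) (w (i + 1)) * sin θ) / cos θ := by
          rw [nsub, tan_eq_sin_div_cos]
          simp only [a]
          field_simp
          ring
        have e2 : c i + d (i + 1) = a i + a (i + 1) -
            (sin (θ * (i + 1)) / sin (θ * i) * ‖w i‖ ^ 2 +
              (sin (θ * (i + 1)) / sin (θ * i))⁻¹ * ‖w (i + 1)‖ ^ 2) / cos θ := by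
          simp only [c, d, a]
          push_cast
          rw [inv_div]
          have : θ * ((i : ℝ) + 1 - 1) = θ * i := by ring
          rw [this]
          ring
        rw [e1, e2]
        have := div_le_div_of_nonneg_right hk hc.le
        linarith
      · have hin : i + 1 = n := by omega
        have e1 : cr (w i) (w (i + 1)) = 0 := by rw [hin, hnn]; simp [cr]
        have e2 : d (i + 1) = 0 := by
          simp only [d]
          rw [hin, han, zero_mul]
        have e3 : c i = a i := by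
          simp only [c]
          have : θ * ((i : ℝ) + 1) = θ * n := by
            rw [← hin]
            push_cast
            rfl
          rw [this, hgn]
          simp
        rw [e1, e2, e3, hin, hnn]
        simp [a]
  have hsum : ∑ i ∈ range n, (c i + d (i + 1)) = 0 := by
    have hd : ∑ i ∈ range n, d (i + 1) = ∑ i ∈ range n, d i + d n - d 0 := by
      have e1 := Finset.sum_range_succ d n
      have e2 := Finset.sum_range_succ' d n
      linarith
    have hd0 : d 0 = 0 := by simp only [d]; rw [ha0, zero_mul]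
    have hdn : d n = 0 := by simp only [d]; rw [han, zero_mul]
    rw [sum_add_distrib, hd, hd0, hdn, add_zero, sub_zero, ← sum_add_distrib]
    refine sum_eq_zero fun i hi => ?_
    rw [mem_range] at hi
    rcases Nat.eq_zero_or_pos i with h | h
    · subst h
      simp only [c, d]
      rw [ha0]
      ring
    · have hgi := hg i h hi
      have e : sin (θ * (i + 1)) + sin (θ * (i - 1)) = 2 * sin (θ * i) * cos θ := by
        have e1 : θ * ((i : ℝ) + 1) = θ * i + θ := by ring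
        have e2 : θ * ((i : ℝ) - 1) = θ * i - θ := by ring
        rw [e1, e2, sin_add, sin_sub]
        ring
      have e' : sin (θ * (i + 1)) = 2 * sin (θ * i) * cos θ - sin (θ * (i - 1)) := by linarith
      simp only [c, d]
      rw [e']
      field_simp
      ring
  rw [← hsum]
  exact sum_le_sum hterm

theorem quad_ngon (n : ℕ) [NeZero n] (hn : 3 ≤ n) (z : Fin n → ℂ) :
    4 * tan (π / n) * ((∑ i, cr (z i) (z (i + 1))) / 2) ≤ ∑ i, ‖z (i + 1) - z i‖ ^ 2 := by
  have hn0 : 0 < n := by omega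
  let w : ℕ → ℂ := fun j => z ⟨j % n, Nat.mod_lt _ hn0⟩ - z 0
  have hi0 : (⟨0 % n, Nat.mod_lt _ hn0⟩ : Fin n) = 0 := Fin.ext (by simp)
  have hin : (⟨n % n, Nat.mod_lt _ hn0⟩ : Fin n) = 0 := Fin.ext (by simp)
  have hi1 : ∀ i : Fin n, (⟨(i : ℕ) % n, Nat.mod_lt _ hn0⟩ : Fin n) = i :=
    fun i => Fin.ext (Nat.mod_eq_of_lt i.2)
  have hi2 : ∀ i : Fin n, (⟨((i : ℕ) + 1) % n, Nat.mod_lt _ hn0⟩ : Fin n) = i + 1 :=
    fun i => Fin.ext (by rw [Fin.val_add, Fin.val_one', Nat.add_mod_mod])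
  have h0 : w 0 = 0 := by simp only [w]; rw [hi0, sub_self]
  have hnn : w n = 0 := by simp only [w]; rw [hin, sub_self]
  have hco := core n hn w h0 hnn
  have hS : ∀ F : ℂ → ℂ → ℝ, ∑ i, F (z i) (z (i + 1)) =
      ∑ i ∈ range n, F (w i + z 0) (w (i + 1) + z 0) := by
    intro F
    rw [← Fin.sum_univ_eq_sum_range (fun i => F (w i + z 0) (w (i + 1) + z 0)) n]
    refine sum_congr rfl fun i _ => ?_
    simp only [w]
    rw [sub_add_cancel, sub_add_cancel, hi1, hi2]
  have e1 : ∑ i, ‖z (i + 1) - z i‖ ^ 2 = ∑ i ∈ range n, ‖w (i + 1) - w i‖ ^ 2 := by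
    rw [hS fun a b => ‖b - a‖ ^ 2]
    refine sum_congr rfl fun i _ => ?_
    rw [add_sub_add_right_eq_sub]
  have e2 : ∑ i, cr (z i) (z (i + 1)) = ∑ i ∈ range n, cr (w i) (w (i + 1)) := by
    rw [hS cr]
    have e3 : ∀ i, cr (w i + z 0) (w (i + 1) + z 0) =
        cr (w i) (w (i + 1)) + (cr (z 0) (w (i + 1)) - cr (z 0) (w i)) := by
      intro i
      simp only [cr, Complex.add_re, Complex.add_im]
      ring
    have e4 := sum_range_sub (fun i => cr (z 0) (w i)) n
    rw [sum_congr rfl fun i _ => e3 i, sum_add_distrib, e4]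
    simp only [hnn, h0]
    ring
  rw [e1, e2]
  rw [sum_sub_distrib, ← mul_sum] at hco
  linarith

end Pool.Agent.Helper98.LC
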